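import Pool.Agent.Lib.MP_d55432_al.G2.Iface

/-!
# G2: module SEMI
-/

namespace Pool.Agent.Lib.MP_d55432_al.G2.H3

open Matrix LieAlgebra

attribute [local instance 100] LieRing.ofAssociativeRing

variable {K : Type*} [Field K]

theorem tau_add (A B : M7 K) : tau (A + B) = tau A + tau B := by
  simp only [tau, add_mulVec, br_add_left, smul_add]
  abel

theorem tau_zero : tau (0 : M7 K) = 0 := by
  have h := tau_add (0 : M7 K) 0
  rw [add_zero] at h
  exact left_eq_add.mp h

theorem tau_smul (c : K) (A : M7 K) : tau (c • A) = c • tau A := by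
  simp only [tau, smul_mulVec, br_smul_left, smul_add, smul_comm c (2 : K)]

theorem lie_coe (x y : g2 K) : (⁅x, y⁆ : g2 K).1 = x.1 * y.1 - y.1 * x.1 := rfl

theorem finite_g2 : Module.Finite K (g2 K) :=
  inferInstanceAs (Module.Finite K (g2 K).toSubmodule)

theorem semi (K : Type*) [Field K] [IsAlgClosed K] [CharZero K] (htau : TAU_S K) : SEMI_S K := by
  intro X hX
  haveI : Module.Finite K (g2 K) := finite_g2
  set F : Module.End K (g2 K) := LieAlgebra.ad K (g2 K) X with hF
  have htop : (⨆ μ : K, Module.End.eigenspace F μ) = ⊤ := by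
    have h1 := Module.End.iSup_maxGenEigenspace_eq_top F
    have h2 : ∀ μ : K, Module.End.maxGenEigenspace F μ = Module.End.eigenspace F μ := fun μ =>
      (Module.End.IsSemisimple.isFinitelySemisimple hX).maxGenEigenspace_eq_eigenspace μ
    simpa [h2] using h1
  set S : Submodule K (V7 K) := ⨆ μ : K, Module.End.eigenspace (Matrix.toLin' X.1) μ with hS
  have key : ∀ (a b c : K) (x y z : g2 K), ⁅X, x⁆ = a • x → ⁅X, y⁆ = b • y → ⁅X, z⁆ = c • z →
      tau (x.1 * y.1 * z.1) ∈ S := by
    intro a b c x y z hx hy hz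
    have hx' : X.1 * x.1 - x.1 * X.1 = a • x.1 := congrArg Subtype.val hx
    have hy' : X.1 * y.1 - y.1 * X.1 = b • y.1 := congrArg Subtype.val hy
    have hz' : X.1 * z.1 - z.1 * X.1 = c • z.1 := congrArg Subtype.val hz
    have h3 : X.1 * (x.1 * y.1 * z.1) - (x.1 * y.1 * z.1) * X.1 =
        (a + b + c) • (x.1 * y.1 * z.1) := by
      calc X.1 * (x.1 * y.1 * z.1) - (x.1 * y.1 * z.1) * X.1
          = (X.1 * x.1 - x.1 * X.1) * (y.1 * z.1) + x.1 * (X.1 * y.1 - y.1 * X.1) * z.1 +
            x.1 * y.1 * (X.1 * z.1 - z.1 * X.1) := by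
            simp only [Matrix.sub_mul, Matrix.mul_sub, Matrix.mul_assoc]
            abel
        _ = _ := by
            rw [hx', hy', hz']
            simp only [Matrix.smul_mul, Matrix.mul_smul, Matrix.mul_assoc, add_smul]
    have h4 := htau.2.1 X.1 X.2 (x.1 * y.1 * z.1)
    rw [h3, tau_smul] at h4
    refine Submodule.mem_iSup_of_mem (a + b + c) ?_
    rw [Module.End.mem_eigenspace_iff, Matrix.toLin'_apply]
    exact h4.symm
  have mem : ∀ x : g2 K, x ∈ (⨆ μ : K, Module.End.eigenspace F μ) := fun x => by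
    rw [htop]; trivial
  have all : ∀ x y z : g2 K, tau (x.1 * y.1 * z.1) ∈ S := by
    intro x
    refine Submodule.iSup_induction (fun μ : K => Module.End.eigenspace F μ)
      (motive := fun x : g2 K => ∀ y z : g2 K, tau (x.1 * y.1 * z.1) ∈ S) (mem x) ?_ ?_ ?_
    · intro a x hx y
      refine Submodule.iSup_induction (fun μ : K => Module.End.eigenspace F μ)
        (motive := fun y : g2 K => ∀ z : g2 K, tau (x.1 * y.1 * z.1) ∈ S) (mem y) ?_ ?_ ?_
      · intro b y hy z
        refine Submodule.iSup_induction (fun μ : K => Module.End.eigenspace F μ)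
          (motive := fun z : g2 K => tau (x.1 * y.1 * z.1) ∈ S) (mem z) ?_ ?_ ?_
        · intro c z hz
          rw [Module.End.mem_eigenspace_iff] at hx hy hz
          exact key a b c x y z hx hy hz
        · have : x.1 * y.1 * (0 : g2 K).1 = 0 := Matrix.mul_zero _
          change tau (x.1 * y.1 * (0 : g2 K).1) ∈ S
          rw [this, tau_zero]
          exact S.zero_mem
        · intro z z' h h'
          have : x.1 * y.1 * (z + z' : g2 K).1 = x.1 * y.1 * z.1 + x.1 * y.1 * z'.1 :=
            Matrix.mul_add _ _ _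
          change tau (x.1 * y.1 * (z + z' : g2 K).1) ∈ S
          rw [this, tau_add]
          exact S.add_mem h h'
      · intro z
        have : x.1 * (0 : g2 K).1 * z.1 = 0 := by
          rw [show (0 : g2 K).1 = (0 : M7 K) from rfl, Matrix.mul_zero, Matrix.zero_mul]
        rw [this, tau_zero]
        exact S.zero_mem
      · intro y y' h h' z
        have : x.1 * (y + y' : g2 K).1 * z.1 = x.1 * y.1 * z.1 + x.1 * y'.1 * z.1 := by
          rw [show (y + y' : g2 K).1 = y.1 + y'.1 from rfl, Matrix.mul_add, Matrix.add_mul]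
        rw [this, tau_add]
        exact S.add_mem (h z) (h' z)
    · intro y z
      have : (0 : g2 K).1 * y.1 * z.1 = 0 := by
        rw [show (0 : g2 K).1 = (0 : M7 K) from rfl, Matrix.zero_mul, Matrix.zero_mul]
      rw [this, tau_zero]
      exact S.zero_mem
    · intro x x' h h' y z
      have : (x + x' : g2 K).1 * y.1 * z.1 = x.1 * y.1 * z.1 + x'.1 * y.1 * z.1 := by
        rw [show (x + x' : g2 K).1 = x.1 + x'.1 from rfl, Matrix.add_mul, Matrix.add_mul]
      rw [this, tau_add]
      exact S.add_mem (h y z) (h' y z)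
  change S = ⊤
  rw [eq_top_iff]
  intro v _
  obtain ⟨x, y, z, h⟩ := htau.2.2 v
  rw [← h]
  exact all x y z

end Pool.Agent.Lib.MP_d55432_al.G2.H3
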