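import Pool.Agent.Lib.MP_d55432_al.G2.H5.AutA

/-!
# G2: module SIMPLE
-/

namespace Pool.Agent.Lib.MP_d55432_al.G2.H3

open Matrix LieAlgebra H5

attribute [local instance 100] LieRing.ofAssociativeRing

/-- A cycle through the twelve roots. -/
def wq : Fin 12 → Fin 14 := ![2, 3, 5, 4, 6, 7, 10, 8, 9, 13, 11, 12]

@[inherit_doc wq]
def jq : Fin 12 → Fin 14 := ![5, 4, 6, 7, 2, 9, 3, 4, 8, 6, 2, 8]

@[inherit_doc wq]
def cq : Fin 12 → ℤ := ![1, -1, 1, -1, 1, 1, -1, -1, -2, 1, 1, 3]

theorem cyc : ∀ n : Fin 12, gM (Pi.single (wq n) (1 : ℤ)) * gM (Pi.single (jq n) (1 : ℤ)) -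
    gM (Pi.single (jq n) (1 : ℤ)) * gM (Pi.single (wq n) (1 : ℤ)) =
      gM (Pi.single (wq (n + 1)) (cq n)) := by
  decide +kernel

theorem cq_ne : ∀ n, cq n ≠ 0 := by decide

theorem wq_surj : ∀ i : Fin 14, 2 ≤ i → ∃ n, wq n = i := by decide

theorem wq_ge : ∀ n, 2 ≤ wq n := by decide

theorem iter_surj : ∀ n m : Fin 12, ∃ a : Fin 12, (fun t : Fin 12 => t + 1)^[a.val] n = m := by
  decide

variable {K : Type*} [Field K]

/-- The coordinates. -/
def Gl (hp : PARAM_S K) : (Fin 14 → K) →ₗ[K] g2 K where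
  toFun f := ⟨gM f, (hp _).2 ⟨f, rfl⟩⟩
  map_add' f g := Subtype.ext (gM_add f g)
  map_smul' c f := Subtype.ext (gM_smul c f)

theorem Gl_coe (hp : PARAM_S K) (f : Fin 14 → K) : (Gl hp f).1 = gM f := rfl

theorem Gl_surj (hp : PARAM_S K) (x : g2 K) : ∃ f, Gl hp f = x := by
  obtain ⟨f, hf⟩ := (hp x.1).1 x.2
  exact ⟨f, Subtype.ext hf.symm⟩

section ideal

variable (hp : PARAM_S K) (I : LieIdeal K (g2 K))

/-- The coordinates of the elements of an ideal. -/
def JJ : Submodule K (Fin 14 → K) := (I.toSubmodule).comap (Gl hp)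

theorem mem_JJ (f : Fin 14 → K) : f ∈ JJ hp I ↔ Gl hp f ∈ I := Iff.rfl

theorem JJ_lie {f g h : Fin 14 → K} (hf : f ∈ JJ hp I)
    (e : gM f * gM g - gM g * gM f = gM h) : h ∈ JJ hp I := by
  have h1 : ⁅Gl hp f, Gl hp g⁆ ∈ I := lie_mem_left K (g2 K) I _ _ hf
  have h2 : ⁅Gl hp f, Gl hp g⁆ = Gl hp h := Subtype.ext e
  rw [h2] at h1
  exact h1

theorem JJ_rho {f : Fin 14 → K} (hf : f ∈ JJ hp I) (l m : K) :
    (fun i => rho l m i * f i) ∈ JJ hp I := by
  have h1 : gM f * TT l m - TT l m * gM f = gM (fun i => -(rho l m i * f i)) := by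
    rw [← neg_sub, TT_lie, ← neg_one_smul K (gM _), ← gM_smul]
    congr 1
    funext i
    simp
  rw [TT_eq] at h1
  have h2 := JJ_lie hp I hf h1
  have h3 := (JJ hp I).neg_mem h2
  convert h3 using 1
  funext i
  simp

theorem JJ_prod {f : Fin 14 → K} (hf : f ∈ JJ hp I) (s : Finset (Fin 14)) :
    (fun i => (∏ j ∈ s, (rho (1 : K) 3 i - rho (1 : K) 3 j)) * f i) ∈ JJ hp I := by
  induction s using Finset.induction_on with
  | empty => simpa using hf
  | insert a s ha ih =>
    have h1 := (JJ hp I).sub_mem (JJ_rho hp I ih 1 3) ((JJ hp I).smul_mem (rho (1 : K) 3 a) ih)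
    convert h1 using 1
    funext i
    rw [Finset.prod_insert ha]
    simp only [Pi.sub_apply, Pi.smul_apply, smul_eq_mul]
    ring

variable [CharZero K]

theorem rho_ne {i j : Fin 14} (hi : 2 ≤ i) (hj : j ≠ i) :
    rho (1 : K) 3 i - rho (1 : K) 3 j ≠ 0 := by
  have h1 := rho_cast (A := K) 1 3
  simp only [Int.cast_one, Int.cast_ofNat] at h1
  rw [h1, h1, sub_ne_zero]
  intro h
  exact hj (simple_check i j hi (by exact_mod_cast h.symm))

theorem single_of {f : Fin 14 → K} (hf : f ∈ JJ hp I) {i : Fin 14} (hi : 2 ≤ i)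
    (h0 : f i ≠ 0) : (Pi.single i 1 : Fin 14 → K) ∈ JJ hp I := by
  have h1 := JJ_prod hp I hf (Finset.univ.erase i)
  set c : K := (∏ j ∈ Finset.univ.erase i, (rho (1 : K) 3 i - rho (1 : K) 3 j)) * f i with hc
  have hc0 : c ≠ 0 := by
    rw [hc]
    refine mul_ne_zero (Finset.prod_ne_zero_iff.2 fun j hj => ?_) h0
    exact rho_ne hi (Finset.ne_of_mem_erase hj)
  have h2 : (Pi.single i 1 : Fin 14 → K) = c⁻¹ • (fun k =>
      (∏ j ∈ Finset.univ.erase i, (rho (1 : K) 3 k - rho (1 : K) 3 j)) * f k) := by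
    funext k
    by_cases hk : k = i
    · subst hk
      rw [Pi.single_eq_same, Pi.smul_apply, smul_eq_mul, ← hc, inv_mul_cancel₀ hc0]
    · rw [Pi.single_eq_of_ne hk, Pi.smul_apply, smul_eq_mul,
        Finset.prod_eq_zero (Finset.mem_erase.2 ⟨hk, Finset.mem_univ k⟩) (sub_self _), zero_mul,
        mul_zero]
  rw [h2]
  exact (JJ hp I).smul_mem _ h1

theorem single_next {n : Fin 12} (h : (Pi.single (wq n) 1 : Fin 14 → K) ∈ JJ hp I) :
    (Pi.single (wq (n + 1)) 1 : Fin 14 → K) ∈ JJ hp I := by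
  have h1 := JJ_lie hp I h (basis_lie (A := K) _ _ _ _ (cyc n))
  have hc : ((cq n : ℤ) : K) ≠ 0 := by exact_mod_cast cq_ne n
  have h2 := (JJ hp I).smul_mem ((cq n : ℤ) : K)⁻¹ h1
  rwa [← Pi.single_smul, smul_eq_mul, inv_mul_cancel₀ hc] at h2

theorem single_all {i : Fin 14} (hi : 2 ≤ i) (h : (Pi.single i 1 : Fin 14 → K) ∈ JJ hp I)
    (k : Fin 14) (hk : 2 ≤ k) : (Pi.single k 1 : Fin 14 → K) ∈ JJ hp I := by
  obtain ⟨n, rfl⟩ := wq_surj i hi
  obtain ⟨m, rfl⟩ := wq_surj k hk
  have h1 : ∀ a : ℕ, (Pi.single (wq ((fun t : Fin 12 => t + 1)^[a] n)) 1 : Fin 14 → K) ∈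
      JJ hp I := by
    intro a
    induction a with
    | zero => simpa using h
    | succ a ih =>
      rw [Function.iterate_succ_apply']
      exact single_next hp I ih
  obtain ⟨a, ha⟩ := iter_surj n m
  rw [← ha]
  exact h1 a.val

theorem JJ_top (h : (Pi.single 8 1 : Fin 14 → K) ∈ JJ hp I) : JJ hp I = ⊤ := by
  have hs := single_all hp I (by decide) h
  have e1 : (![-2, 1, 0, 0, 0, 0, 0, 0, 0, 0, 0, 0, 0, 0] : Fin 14 → K) ∈ JJ hp I := by
    have h1 := lie_cast (A := K) _ _ _ b_8_11
    simp only [single_cast, Int.cast_one] at h1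
    have h2 := JJ_lie hp I (hs 8 (by decide)) h1
    convert h2 using 1
    funext i
    fin_cases i <;> simp
  have e2 : (![1, -2, 0, 0, 0, 0, 0, 0, 0, 0, 0, 0, 0, 0] : Fin 14 → K) ∈ JJ hp I := by
    have h1 := lie_cast (A := K) _ _ _ b_9_12
    simp only [single_cast, Int.cast_one] at h1
    have h2 := JJ_lie hp I (hs 9 (by decide)) h1
    convert h2 using 1
    funext i
    fin_cases i <;> simp
  have h3 : (3 : K) ≠ 0 := by norm_num
  have s0 : (Pi.single 0 1 : Fin 14 → K) ∈ JJ hp I := by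
    have h1 := (JJ hp I).add_mem ((JJ hp I).smul_mem (-(2 / 3) : K) e1)
      ((JJ hp I).smul_mem (-(1 / 3) : K) e2)
    convert h1 using 1
    funext i
    fin_cases i <;> simp <;> ring
  have s1 : (Pi.single 1 1 : Fin 14 → K) ∈ JJ hp I := by
    have h1 := (JJ hp I).add_mem ((JJ hp I).smul_mem (-(1 / 3) : K) e1)
      ((JJ hp I).smul_mem (-(2 / 3) : K) e2)
    convert h1 using 1
    funext i
    fin_cases i <;> simp <;> ring
  have hall : ∀ i : Fin 14, (Pi.single i 1 : Fin 14 → K) ∈ JJ hp I := by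
    intro i
    by_cases hi : 2 ≤ i
    · exact hs i hi
    · have : i = 0 ∨ i = 1 := by
        revert i
        decide
      rcases this with rfl | rfl
      · exact s0
      · exact s1
  rw [eq_top_iff]
  intro f _
  rw [← Finset.univ_sum_single f]
  refine Submodule.sum_mem _ fun i _ => ?_
  have : (Pi.single i (f i) : Fin 14 → K) = f i • Pi.single i 1 := by
    rw [← Pi.single_smul, smul_eq_mul, mul_one]
  rw [this]
  exact (JJ hp I).smul_mem _ (hall i)

end ideal

/-- SIMPLE -/
theorem simple (K : Type*) [Field K] [CharZero K] (hp : PARAM_S K) : SIMPLE_S K where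
  eq_bot_or_eq_top I := by
    by_cases hI : I = ⊥
    · exact Or.inl hI
    · right
      have h0 : ∃ x ∈ I, x ≠ 0 := by
        by_contra hcon
        push Not at hcon
        exact hI ((LieSubmodule.eq_bot_iff I).2 hcon)
      obtain ⟨x, hx, hx0⟩ := h0
      obtain ⟨f, rfl⟩ := Gl_surj hp x
      have hf : f ∈ JJ hp I := hx
      have h8 : (Pi.single 8 1 : Fin 14 → K) ∈ JJ hp I := by
        by_cases h1 : ∃ i : Fin 14, 2 ≤ i ∧ f i ≠ 0
        · obtain ⟨i, hi, hi0⟩ := h1
          exact single_all hp I hi (single_of hp I hf hi hi0) 8 (by decide)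
        · push Not at h1
          have hT : gM f = TT (f 0) (f 1) := by
            rw [TT_eq]
            congr 1
            funext i
            fin_cases i <;> simp [h1]
          have h2 : ∀ i : Fin 14, gM f * gM (Pi.single i (1 : K)) -
              gM (Pi.single i (1 : K)) * gM f =
                gM (fun k => rho (f 0) (f 1) k * (Pi.single i (1 : K) : Fin 14 → K) k) := by
            intro i
            rw [hT, TT_lie]
          have h3 : f 0 ≠ 0 ∨ f 1 ≠ 0 := by
            by_contra hcon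
            push Not at hcon
            apply hx0
            have : f = 0 := by
              funext i
              by_cases hi : 2 ≤ i
              · exact h1 i hi
              · have : i = 0 ∨ i = 1 := by
                  revert i
                  decide
                rcases this with rfl | rfl
                · exact hcon.1
                · exact hcon.2
            rw [this, map_zero]
          rcases h3 with h3 | h3
          · exact single_of hp I (JJ_lie hp I hf (h2 8)) (by decide) (by simpa [rho] using h3)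
          · exact single_all hp I (by decide) (single_of hp I (JJ_lie hp I hf (h2 9))
              (i := 9) (by decide) (by simpa [rho] using h3)) 8 (by decide)
      have htop := JJ_top hp I h8
      rw [eq_top_iff]
      intro y _
      obtain ⟨g, rfl⟩ := Gl_surj hp y
      have : g ∈ JJ hp I := by rw [htop]; trivial
      exact this
  non_abelian := by
    intro h
    have h1 := h.trivial (Gl hp (Pi.single (wq 0) 1)) (Gl hp (Pi.single (jq 0) 1))
    have h2 : gM (Pi.single (wq 0) (1 : K)) * gM (Pi.single (jq 0) (1 : K)) -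
        gM (Pi.single (jq 0) (1 : K)) * gM (Pi.single (wq 0) (1 : K)) = 0 :=
      congrArg Subtype.val h1
    rw [basis_lie (A := K) _ _ _ _ (cyc 0)] at h2
    have h3 : gM (Pi.single (wq (0 + 1)) ((cq 0 : ℤ) : K)) = gM (0 : Fin 14 → K) := by
      rw [h2]
      ext i j
      fin_cases i <;> fin_cases j <;> simp [gM]
    have h4 := congrFun (gM_inj h3) (wq (0 + 1))
    rw [Pi.single_eq_same] at h4
    simp [cq] at h4

end Pool.Agent.Lib.MP_d55432_al.G2.H3
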